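import Pool.Agent.Q31.GLV.Stm

/-!
# Job LA of project GLV
-/

set_option autoImplicit false

namespace Pool.Agent.Q217.GLV

open Pool.Agent.Q31.GLV

theorem t_LA : S_LA := by
  intro F V U _ _ _ _ _ τ₁ τ₃ τ h
  have hle : LinearMap.ker (τ₁.prod τ₃) ≤ LinearMap.ker τ := by
    intro v hv
    have hv' : (τ₁ v, τ₃ v) = (0 : U × U) := hv
    rw [Prod.mk_eq_zero] at hv'
    exact LinearMap.mem_ker.2 (h v hv'.1 hv'.2)
  obtain ⟨e, he⟩ := LinearMap.exists_extend
    (((LinearMap.ker (τ₁.prod τ₃)).liftQ τ hle).comp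
      (τ₁.prod τ₃).quotKerEquivRange.symm.toLinearMap)
  have key : ∀ v, e (τ₁ v, τ₃ v) = τ v := by
    intro v
    have h1 := LinearMap.congr_fun he
      (⟨(τ₁.prod τ₃) v, LinearMap.mem_range_self _ v⟩ : LinearMap.range (τ₁.prod τ₃))
    have h2 : (τ₁.prod τ₃).quotKerEquivRange.symm
        (⟨(τ₁.prod τ₃) v, LinearMap.mem_range_self _ v⟩ : LinearMap.range (τ₁.prod τ₃)) =
        (LinearMap.ker (τ₁.prod τ₃)).mkQ v := by
      rw [LinearEquiv.symm_apply_eq]
      apply Subtype.ext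
      simp
    rw [LinearMap.comp_apply, LinearMap.comp_apply, LinearEquiv.coe_coe, h2] at h1
    simpa using h1
  refine ⟨e.comp (LinearMap.inl F U U), e.comp (LinearMap.inr F U U), ?_⟩
  ext v
  rw [LinearMap.add_apply, LinearMap.comp_apply, LinearMap.comp_apply, LinearMap.comp_apply,
    LinearMap.comp_apply, ← map_add, ← key v]
  simp

end Pool.Agent.Q217.GLV
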